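import Pool.Agent.W250.RKJ.Stm

set_option autoImplicit false

open MeasureTheory Metric Set

namespace Pool.Agent.W573.RKJ

open Pool.Agent.W250.RKJ

noncomputable def c (ν : ℝ) (k : ℕ) : ℝ := 1 / ((k.factorial : ℝ) * ∏ i ∈ Finset.range k, (ν + i))

noncomputable def G (ν x : ℝ) : ℝ := ∑' k : ℕ, c ν k * x ^ k

theorem F_eq (ν y : ℝ) : F ν y = G ν (-y / 4) := by
  unfold F G c
  congr 1
  ext k
  rw [div_mul_eq_mul_div, one_mul]

theorem prod_pos' {ν : ℝ} (h : 0 < ν) (k : ℕ) : 0 < ∏ i ∈ Finset.range k, (ν + i) :=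
  Finset.prod_pos fun i _ => by positivity

theorem c_nonneg {ν : ℝ} (h : 0 < ν) (k : ℕ) : 0 ≤ c ν k := by
  unfold c
  have := prod_pos' h k
  positivity

theorem c_le {ν : ℝ} (h : 0 < ν) (k : ℕ) : c ν k ≤ (1 / ν) ^ k / (k.factorial : ℝ) := by
  unfold c
  have h1 : ν ^ k ≤ ∏ i ∈ Finset.range k, (ν + i) := by
    calc ν ^ k = ∏ _i ∈ Finset.range k, ν := by rw [Finset.prod_const, Finset.card_range]
      _ ≤ _ := Finset.prod_le_prod (fun _ _ => h.le) fun i _ => by
          have : (0 : ℝ) ≤ i := Nat.cast_nonneg i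
          linarith
  have h2 : (0 : ℝ) < k.factorial := by positivity
  have h3 : (0 : ℝ) < ν ^ k := by positivity
  rw [one_div_pow, div_div, mul_comm (ν ^ k)]
  apply one_div_le_one_div_of_le (by positivity)
  exact mul_le_mul_of_nonneg_left h1 h2.le

theorem summ {ν : ℝ} (h : 0 < ν) (x : ℝ) : Summable fun k => c ν k * x ^ k := by
  refine Summable.of_norm_bounded (Real.summable_pow_div_factorial (|x| / ν)) fun k => ?_
  rw [Real.norm_eq_abs, abs_mul, abs_of_nonneg (c_nonneg h k), abs_pow]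
  calc c ν k * |x| ^ k ≤ ((1 / ν) ^ k / (k.factorial : ℝ)) * |x| ^ k :=
        mul_le_mul_of_nonneg_right (c_le h k) (by positivity)
    _ = _ := by rw [div_pow, div_pow, one_pow]; ring

theorem c_succ {ν : ℝ} (h : 0 < ν) (k : ℕ) : c ν (k + 1) * ((k : ℝ) + 1) = c (ν + 1) k / ν := by
  unfold c
  rw [Finset.prod_range_succ']
  have e : ∏ i ∈ Finset.range k, (ν + ((i + 1 : ℕ) : ℝ)) = ∏ i ∈ Finset.range k, (ν + 1 + i) :=
    Finset.prod_congr rfl fun i _ => by push_cast; ring
  rw [e]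
  have h1 := prod_pos' (show 0 < ν + 1 by linarith) k
  have h2 : (0 : ℝ) < k.factorial := by positivity
  rw [Nat.factorial_succ]
  push_cast
  rw [add_zero]
  have h3 : (0 : ℝ) < (k : ℝ) + 1 := by positivity
  field_simp

theorem c_id {ν : ℝ} (h : 0 < ν) (k : ℕ) :
    c ν (k + 1) = c (ν + 1) (k + 1) + c (ν + 2) k / (ν * (ν + 1)) := by
  unfold c
  have hA := prod_pos' (show 0 < ν + 1 by linarith) k
  have hB := prod_pos' (show 0 < ν + 2 by linarith) k
  have e1 : ∏ i ∈ Finset.range (k + 1), (ν + (i : ℝ)) = (∏ i ∈ Finset.range k, (ν + 1 + i)) * ν := by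
    rw [Finset.prod_range_succ']
    have e : ∏ i ∈ Finset.range k, (ν + ((i + 1 : ℕ) : ℝ)) = ∏ i ∈ Finset.range k, (ν + 1 + i) :=
      Finset.prod_congr rfl fun i _ => by push_cast; ring
    rw [e]
    simp
  have e2 : ∏ i ∈ Finset.range (k + 1), (ν + 1 + (i : ℝ))
      = (∏ i ∈ Finset.range k, (ν + 2 + i)) * (ν + 1) := by
    rw [Finset.prod_range_succ']
    have e : ∏ i ∈ Finset.range k, (ν + 1 + ((i + 1 : ℕ) : ℝ)) = ∏ i ∈ Finset.range k, (ν + 2 + i) :=
      Finset.prod_congr rfl fun i _ => by push_cast; ring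
    rw [e]
    simp
  have e3 : ∏ i ∈ Finset.range (k + 1), (ν + 1 + (i : ℝ))
      = (∏ i ∈ Finset.range k, (ν + 1 + i)) * (ν + 1 + k) := Finset.prod_range_succ _ _
  rw [e1, e3]
  rw [e3] at e2
  set A := ∏ i ∈ Finset.range k, (ν + 1 + (i : ℝ)) with hAd
  set B := ∏ i ∈ Finset.range k, (ν + 2 + (i : ℝ)) with hBd
  have hk : (0 : ℝ) < ν + 1 + k := by positivity
  have hB' : B = A * (ν + 1 + k) / (ν + 1) := by
    rw [e2]; field_simp
  rw [hB', Nat.factorial_succ]
  have h2 : (0 : ℝ) < k.factorial := by positivity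
  have h3 : (0 : ℝ) < (k : ℝ) + 1 := by positivity
  have h4 : (0 : ℝ) < ν + 1 := by linarith
  push_cast
  field_simp
  ring

theorem G_deriv {ν : ℝ} (h : 0 < ν) (x : ℝ) : HasDerivAt (G ν) (G (ν + 1) x / ν) x := by
  set R : ℝ := |x| + 1 with hR
  have hR0 : 0 < R := by positivity
  have hsu : Summable fun n : ℕ => c ν n * n * R ^ (n - 1) := by
    rw [← summable_nat_add_iff 1]
    have : (fun n : ℕ => c ν (n + 1) * ((n + 1 : ℕ) : ℝ) * R ^ (n + 1 - 1))
        = fun n => (1 / ν) * (c (ν + 1) n * R ^ n) := by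
      funext n
      push_cast
      rw [c_succ h]
      ring
    rw [this]
    exact (summ (by linarith) R).mul_left _
  have key := hasDerivAt_tsum_of_isPreconnected (g := fun n y => c ν n * y ^ n)
    (g' := fun n y => c ν n * (n * y ^ (n - 1))) (y₀ := x) (y := x) (t := Metric.ball 0 R)
    hsu Metric.isOpen_ball
    (convex_ball (0 : ℝ) R).isPreconnected (fun n y _ => (hasDerivAt_pow n y).const_mul _)
    (fun n y hy => by
      rw [Real.norm_eq_abs, abs_mul, abs_mul, abs_of_nonneg (c_nonneg h n), Nat.abs_cast, abs_pow,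
        ← mul_assoc]
      have hy' : |y| ≤ R := by
        have := mem_ball_zero_iff.mp hy
        rw [Real.norm_eq_abs] at this
        exact this.le
      exact mul_le_mul_of_nonneg_left (pow_le_pow_left₀ (abs_nonneg y) hy' _)
        (mul_nonneg (c_nonneg h n) (Nat.cast_nonneg n)))
    (by rw [mem_ball_zero_iff, Real.norm_eq_abs, hR]; linarith)
    (summ h x)
    (by rw [mem_ball_zero_iff, Real.norm_eq_abs, hR]; linarith)
  have e : ∑' n : ℕ, c ν n * (n * x ^ (n - 1)) = G (ν + 1) x / ν := by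
    have hs : Summable fun n : ℕ => c ν n * (n * x ^ (n - 1)) := by
      rw [← summable_nat_add_iff 1]
      have : (fun n : ℕ => c ν (n + 1) * (((n + 1 : ℕ) : ℝ) * x ^ (n + 1 - 1)))
          = fun n => (1 / ν) * (c (ν + 1) n * x ^ n) := by
        funext n
        push_cast
        rw [← mul_assoc, c_succ h]
        ring
      rw [this]
      exact (summ (by linarith) x).mul_left _
    rw [hs.tsum_eq_zero_add]
    simp only [Nat.cast_zero, zero_mul, mul_zero, zero_add]
    have : (fun n : ℕ => c ν (n + 1) * (((n + 1 : ℕ) : ℝ) * x ^ (n + 1 - 1)))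
        = fun n => (1 / ν) * (c (ν + 1) n * x ^ n) := by
      funext n
      push_cast
      rw [← mul_assoc, c_succ h]
      ring
    rw [this, tsum_mul_left]
    unfold G
    ring
  rw [e] at key
  exact key

theorem G_id {ν : ℝ} (h : 0 < ν) (x : ℝ) :
    G ν x = G (ν + 1) x + x / (ν * (ν + 1)) * G (ν + 2) x := by
  unfold G
  have h1 := summ h x
  have h2 := summ (show 0 < ν + 1 by linarith) x
  have h3 := summ (show 0 < ν + 2 by linarith) x
  rw [h1.tsum_eq_zero_add, h2.tsum_eq_zero_add]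
  have e0 : c ν 0 = 1 := by simp [c]
  have e1 : c (ν + 1) 0 = 1 := by simp [c]
  rw [e0, e1, pow_zero, mul_one, add_assoc, ← tsum_mul_left, ← Summable.tsum_add
    ((summable_nat_add_iff 1).mpr h2) (h3.mul_left _)]
  congr 1
  congr 1
  ext k
  rw [c_id h, pow_succ]
  ring

theorem sf : SF := by
  intro ν h
  refine ⟨?_, ?_, ?_⟩
  · rw [F_eq]
    unfold G
    rw [tsum_eq_single 0]
    · simp [c]
    · intro k hk
      simp [hk]
  · intro y
    have h1 := (G_deriv h (-y / 4)).comp y (((hasDerivAt_id y).neg).div_const 4)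
    have e : (F ν) = (G ν ∘ fun y => -y / 4) := by
      funext y; rw [F_eq]; rfl
    rw [e, F_eq]
    refine h1.congr_deriv ?_
    field_simp
  · intro y
    rw [F_eq, F_eq, F_eq, G_id h]
    field_simp
    ring

theorem spos (h0 : SF) : SPOS := by
  intro ν z hν hz hpos y hy0 hyz
  rcases hy0.eq_or_lt with h | hy
  · rw [← h, (h0 (ν + 1) (by linarith)).1]
    exact one_pos
  obtain ⟨_, hd, _⟩ := h0 (ν + 1) (by linarith)
  obtain ⟨_, _, hid⟩ := h0 ν hν
  have hcont : Continuous (F (ν + 1)) := continuous_iff_continuousAt.mpr fun y => (hd y).continuousAt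
  have hg : StrictMonoOn (fun y : ℝ => y ^ ν * F (ν + 1) y) (Icc 0 z) := by
    apply strictMonoOn_of_deriv_pos (convex_Icc 0 z)
    · exact ((Real.continuous_rpow_const hν.le).mul hcont).continuousOn
    · intro x hx
      rw [interior_Icc] at hx
      have h1 : HasDerivAt (fun y : ℝ => y ^ ν * F (ν + 1) y)
          (ν * x ^ (ν - 1) * F (ν + 1) x + x ^ ν * (-(F (ν + 1 + 1) x) / (4 * (ν + 1)))) x :=
        (Real.hasDerivAt_rpow_const (Or.inl hx.1.ne')).mul (hd x)
      rw [h1.deriv]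
      have e1 : x ^ ν = x ^ (ν - 1) * x := by
        rw [← Real.rpow_add_one hx.1.ne']
        congr 1
        ring
      have e2 : ν * x ^ (ν - 1) * F (ν + 1) x + x ^ ν * (-(F (ν + 1 + 1) x) / (4 * (ν + 1)))
          = ν * x ^ (ν - 1) * F ν x := by
        rw [hid x, e1, show ν + 1 + 1 = ν + 2 by ring]
        field_simp
        ring
      rw [e2]
      have h3 := hpos x hx.1.le hx.2
      have h4 : 0 < x ^ (ν - 1) := Real.rpow_pos_of_pos hx.1 _
      positivity
  have h5 := hg (left_mem_Icc.mpr hz.le) ⟨hy.le, hyz⟩ hy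
  simp only at h5
  rw [Real.zero_rpow hν.ne', zero_mul] at h5
  exact (pos_iff_pos_of_mul_pos h5).mp (Real.rpow_pos_of_pos hy _)

theorem sex (h0 : SF) (h1 : SPOS) : SEX := by
  intro ν hν
  have hcont : Continuous (F ν) :=
    continuous_iff_continuousAt.mpr fun y => ((h0 ν hν).2.1 y).continuousAt
  set Y : ℝ := 4 * ν * (ν + 1) with hY
  have hY0 : 0 < Y := by positivity
  have hex : ∃ y ∈ Icc 0 Y, F ν y ≤ 0 := by
    by_contra hcon
    push Not at hcon
    have p0 : ∀ y, 0 ≤ y → y < Y → 0 < F ν y := fun y h2 h3 => hcon y ⟨h2, h3.le⟩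
    have p1 := h1 ν Y hν hY0 p0
    have p2 := h1 (ν + 1) Y (by linarith) hY0 fun y h2 h3 => p1 y h2 h3.le
    have p3 := h1 (ν + 1 + 1) Y (by linarith) hY0 fun y h2 h3 => p2 y h2 h3.le
    have i1 := (h0 ν hν).2.2 Y
    have i2 := (h0 (ν + 1) (by linarith)).2.2 Y
    have q0 := hcon Y (right_mem_Icc.mpr hY0.le)
    have q3 := p3 Y hY0.le le_rfl
    have e1 : Y / (4 * ν * (ν + 1)) = 1 := by rw [hY]; field_simp
    rw [e1, one_mul] at i1
    have e2 : ν + 1 + 1 = ν + 2 := by ring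
    have e3 : ν + 1 + 2 = ν + 1 + 1 + 1 := by ring
    rw [e3] at i2
    rw [e2] at i2 q3
    have h5 : 0 < Y / (4 * (ν + 1) * (ν + 2)) := by positivity
    have h6 := mul_pos h5 q3
    linarith
  obtain ⟨y1, hy1, hy1'⟩ := hex
  have hcomp : IsCompact (Icc 0 Y ∩ {y | F ν y ≤ 0}) :=
    isCompact_Icc.inter_right (isClosed_le hcont continuous_const)
  obtain ⟨z, hz, hmin⟩ := hcomp.exists_isLeast ⟨y1, hy1, hy1'⟩
  have hF0 := (h0 ν hν).1
  have hz0 : 0 < z := by
    rcases hz.1.1.eq_or_lt with h | h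
    · exfalso
      have := hz.2
      simp only [mem_ofPred_eq] at this
      rw [← h, hF0] at this
      linarith
    · exact h
  have hpos : ∀ y, 0 ≤ y → y < z → 0 < F ν y := by
    intro y h2 h3
    by_contra h4
    have := hmin ⟨⟨h2, h3.le.trans hz.1.2⟩, not_lt.mp h4⟩
    linarith
  refine ⟨z, hz0, le_antisymm hz.2 ?_, hpos⟩
  have hcl : z ∈ closure (Ico 0 z) := by
    rw [closure_Ico hz0.ne]
    exact right_mem_Icc.mpr hz0.le
  have hclosed : IsClosed {y | 0 ≤ F ν y} := isClosed_le continuous_const hcont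
  exact hclosed.closure_subset_iff.mpr (fun y hy => (hpos y hy.1 hy.2).le) hcl

end Pool.Agent.W573.RKJ
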