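import Pool.Agent.W250.RKJ.Stm

set_option autoImplicit false

open MeasureTheory Metric Set

namespace Pool.Agent.W573.RKJ

open Pool.Agent.W250.RKJ

section

variable (d : ℕ) (z : ℝ)

/-- clamp to `[0, 1/(2d)]` -/
noncomputable def clp (t : ℝ) : ℝ := max 0 (min t (1 / (2 * (d : ℝ))))

noncomputable def yy (t : ℝ) : ℝ := z * (1 - 2 * d * t)

/-- explicit derivative on `[0, 1/(2d)]` -/
noncomputable def p1 (t : ℝ) : ℝ := z * F ((d : ℝ) / 2 + 1) (yy d z t)

noncomputable def dphi (t : ℝ) : ℝ := p1 d z (clp d t)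

noncomputable def phi (V : ℝ) : ℝ := ∫ t in (0 : ℝ)..V, dphi d z t

noncomputable def WW (s : ℝ) : ℝ := max 0 ((1 - s ^ 2) / (2 * (d : ℝ)))

noncomputable def psi (V : ℝ) : ℝ := ∫ t in (0 : ℝ)..V, (p1 d z t) ^ 2

end

variable {d : ℕ} {z : ℝ}

theorem clp_of_mem {t : ℝ} (h0 : 0 ≤ t) (h1 : t ≤ 1 / (2 * (d : ℝ))) : clp d t = t := by
  unfold clp
  rw [min_eq_left h1, max_eq_right h0]

theorem clp_of_le {t : ℝ} (h0 : t ≤ 0) : clp d t = 0 := by
  unfold clp
  exact max_eq_left ((min_le_left _ _).trans h0)

theorem clp_of_ge {t : ℝ} (h1 : 1 / (2 * (d : ℝ)) ≤ t) : clp d t = 1 / (2 * (d : ℝ)) := by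
  unfold clp
  rw [min_eq_right h1, max_eq_right (by positivity)]

theorem clp_mem (t : ℝ) : 0 ≤ clp d t ∧ clp d t ≤ 1 / (2 * (d : ℝ)) := by
  unfold clp
  refine ⟨le_max_left _ _, max_le (by positivity) (min_le_right _ _)⟩

theorem clp_mono : Monotone (clp d) := fun _ _ h => max_le_max le_rfl (min_le_min h le_rfl)

theorem clp_cont : Continuous (clp d) := continuous_const.max (continuous_id.min continuous_const)

theorem yy_mem (hd : 1 ≤ d) (hz : 0 < z) {t : ℝ} (h0 : 0 ≤ t) (h1 : t ≤ 1 / (2 * (d : ℝ))) :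
    0 ≤ yy d z t ∧ yy d z t ≤ z := by
  have hd' : (0 : ℝ) < d := by exact_mod_cast hd
  have h2 : 2 * d * t ≤ 1 := by
    rw [le_div_iff₀ (by positivity)] at h1
    linarith
  have h3 : 0 ≤ 2 * d * t := by positivity
  unfold yy
  constructor
  · exact mul_nonneg hz.le (by linarith)
  · nlinarith

theorem prof (h0 : SF) (h1 : SPOS) : SPROF := by
  intro d hd z hz
  obtain ⟨hz0, hzF, hzpos⟩ := hz
  have hd' : (0 : ℝ) < d := by exact_mod_cast hd
  set ν : ℝ := (d : ℝ) / 2 with hν
  have hν0 : 0 < ν := by positivity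
  obtain ⟨hF0, hFd, hFid⟩ := h0 ν hν0
  obtain ⟨hF10, hF1d, hF1id⟩ := h0 (ν + 1) (by linarith)
  obtain ⟨hF20, hF2d, hF2id⟩ := h0 (ν + 2) (by linarith)
  have hF1pos : ∀ y, 0 ≤ y → y ≤ z → 0 < F (ν + 1) y := h1 ν z hν0 hz0 hzpos
  have hF2pos : ∀ y, 0 ≤ y → y ≤ z → 0 < F (ν + 2) y := by
    have := h1 (ν + 1) z (by linarith) hz0 fun y h2 h3 => hF1pos y h2 h3.le
    intro y h2 h3
    have h4 := this y h2 h3
    rwa [show ν + 1 + 1 = ν + 2 by ring] at h4
  have cF : Continuous (F ν) := continuous_iff_continuousAt.mpr fun y => (hFd y).continuousAt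
  have cF1 : Continuous (F (ν + 1)) := continuous_iff_continuousAt.mpr fun y => (hF1d y).continuousAt
  have e4ν : 4 * ν = 2 * d := by rw [hν]; ring
  have e4ν1 : 4 * (ν + 1) = 2 * (d + 2) := by rw [hν]; ring
  have e4νν : 4 * ν * (ν + 1) = d * (d + 2) := by rw [hν]; ring
  -- derivatives in t
  have hyd : ∀ t : ℝ, HasDerivAt (yy d z) (-(2 * d * z)) t := by
    intro t
    have := (((hasDerivAt_id t).const_mul (2 * (d : ℝ))).const_sub 1).const_mul z
    refine this.congr_deriv ?_
    ring
  have hFF : ∀ t : ℝ, HasDerivAt (fun t => F ν (yy d z t)) (p1 d z t) t := by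
    intro t
    have := (hFd (yy d z t)).comp t (hyd t)
    refine this.congr_deriv ?_
    unfold p1
    rw [e4ν, ← hν]
    field_simp
  have hp1 : ∀ t : ℝ, HasDerivAt (p1 d z) (d * z ^ 2 * F (ν + 2) (yy d z t) / (d + 2)) t := by
    intro t
    have := ((hF1d (yy d z t)).comp t (hyd t)).const_mul z
    refine this.congr_deriv ?_
    rw [e4ν1, show ν + 1 + 1 = ν + 2 by ring]
    field_simp
  have cp1 : Continuous (p1 d z) := continuous_iff_continuousAt.mpr fun y => (hp1 y).continuousAt
  have cdphi : Continuous (dphi d z) := cp1.comp clp_cont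
  have hphid : ∀ V, HasDerivAt (phi d z) (dphi d z V) V := fun V =>
    intervalIntegral.integral_hasDerivAt_right (cdphi.intervalIntegrable _ _)
      cdphi.stronglyMeasurable.stronglyMeasurableAtFilter cdphi.continuousAt
  have hderiv : deriv (phi d z) = dphi d z := funext fun V => (hphid V).deriv
  have cphi : Continuous (phi d z) := continuous_iff_continuousAt.mpr fun y => (hphid y).continuousAt
  have hpsid : ∀ V, HasDerivAt (psi d z) ((p1 d z V) ^ 2) V := fun V =>
    intervalIntegral.integral_hasDerivAt_right ((cp1.pow 2).intervalIntegrable _ _)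
      (cp1.pow 2).stronglyMeasurable.stronglyMeasurableAtFilter (cp1.pow 2).continuousAt
  set m : ℝ := 1 / (2 * (d : ℝ)) with hm
  have hm0 : 0 < m := by positivity
  have hyym : yy d z m = 0 := by
    unfold yy
    rw [hm]
    field_simp
    ring
  have hyy0 : yy d z 0 = z := by unfold yy; ring
  -- phi on [0, m]
  have hphi : ∀ V, 0 ≤ V → V ≤ m → phi d z V = F ν (yy d z V) := by
    intro V hV0 hVm
    unfold phi
    have e : ∫ t in (0 : ℝ)..V, dphi d z t = ∫ t in (0 : ℝ)..V, p1 d z t := by
      apply intervalIntegral.integral_congr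
      intro t ht
      rw [uIcc_of_le hV0] at ht
      unfold dphi
      rw [clp_of_mem ht.1 (ht.2.trans hVm)]
    rw [e, intervalIntegral.integral_eq_sub_of_hasDerivAt (fun t _ => hFF t)
      (cp1.intervalIntegrable _ _), hyy0, hzF, sub_zero]
  have hphim : phi d z m = 1 := by rw [hphi m hm0.le le_rfl, hyym, hF0]
  have hdm : ∀ t, m ≤ t → dphi d z t = z := by
    intro t ht
    unfold dphi p1
    rw [clp_of_ge ht, ← hm, hyym, ← hν, hF10, mul_one]
  have hphi2 : ∀ V, m ≤ V → phi d z V = 1 + z * (V - m) := by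
    intro V hV
    have e : phi d z V = phi d z m + ∫ t in m..V, dphi d z t := by
      unfold phi
      rw [intervalIntegral.integral_add_adjacent_intervals (cdphi.intervalIntegrable _ _)
        (cdphi.intervalIntegrable _ _)]
    have e2 : ∫ t in m..V, dphi d z t = ∫ _t in m..V, z := by
      apply intervalIntegral.integral_congr
      intro t ht
      rw [uIcc_of_le hV] at ht
      exact hdm t ht.1
    rw [e, hphim, e2, intervalIntegral.integral_const, smul_eq_mul]
    ring
  -- F1 antitone on [0, z]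
  have hanti : AntitoneOn (F (ν + 1)) (Icc 0 z) := by
    apply antitoneOn_of_deriv_nonpos (convex_Icc 0 z) cF1.continuousOn
    · intro x _
      exact (hF1d x).differentiableAt.differentiableWithinAt
    · intro x hx
      rw [interior_Icc] at hx
      rw [(hF1d x).deriv, show ν + 1 + 1 = ν + 2 by ring, neg_div]
      have := hF2pos x hx.1.le hx.2.le
      have : 0 < F (ν + 2) x / (4 * (ν + 1)) := by positivity
      linarith
  have hmono : Monotone (dphi d z) := by
    intro s t hst
    unfold dphi p1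
    rw [← hν]
    have h2 := clp_mono (d := d) hst
    have hs := clp_mem (d := d) s
    have ht := clp_mem (d := d) t
    apply mul_le_mul_of_nonneg_left _ hz0.le
    apply hanti (yy_mem hd hz0 ht.1 ht.2) (yy_mem hd hz0 hs.1 hs.2)
    unfold yy
    apply mul_le_mul_of_nonneg_left _ hz0.le
    have := mul_le_mul_of_nonneg_left h2 (show (0 : ℝ) ≤ 2 * d by positivity)
    linarith
  have hdnn : ∀ t, 0 ≤ dphi d z t := by
    intro t
    unfold dphi p1
    rw [← hν]
    have ht := clp_mem (d := d) t
    obtain ⟨h2, h3⟩ := yy_mem hd hz0 ht.1 ht.2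
    exact mul_nonneg hz0.le (hF1pos _ h2 h3).le
  have hWmem : ∀ s : ℝ, 0 ≤ WW d s ∧ WW d s ≤ m := by
    intro s
    unfold WW
    refine ⟨le_max_left _ _, max_le hm0.le ?_⟩
    rw [hm]
    apply div_le_div_of_nonneg_right _ (by positivity)
    nlinarith [sq_nonneg s]
  -- kk on [0,m]
  have hkk1 : ∀ s V, 0 ≤ V → V ≤ m → kk (phi d z) d z s V =
      2 * psi d z V - z * (F ν (yy d z V)) ^ 2 - (p1 d z V) ^ 2 * s ^ 2 / (d : ℝ) ^ 2 := by
    intro s V h2 h3
    unfold kk psi
    rw [hderiv, hphi V h2 h3]
    have e : ∫ t in (0 : ℝ)..V, (dphi d z t) ^ 2 = ∫ t in (0 : ℝ)..V, (p1 d z t) ^ 2 := by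
      apply intervalIntegral.integral_congr
      intro t ht
      rw [uIcc_of_le h2] at ht
      simp only
      unfold dphi
      rw [clp_of_mem ht.1 (ht.2.trans h3)]
    have e2 : dphi d z V = p1 d z V := by
      unfold dphi
      rw [clp_of_mem h2 h3]
    rw [e, e2]
  have hK : ∀ s V, HasDerivAt (fun V => 2 * psi d z V - z * (F ν (yy d z V)) ^ 2 -
      (p1 d z V) ^ 2 * s ^ 2 / (d : ℝ) ^ 2)
      (2 * p1 d z V * (d * z ^ 2 * F (ν + 2) (yy d z V) / (d + 2)) * ((1 - 2 * d * V) - s ^ 2)
        / (d : ℝ) ^ 2) V := by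
    intro s V
    have a1 := (hpsid V).const_mul 2
    have a2 := ((hFF V).pow 2).const_mul z
    have a3 := (((hp1 V).pow 2).mul_const (s ^ 2)).div_const ((d : ℝ) ^ 2)
    refine ((a1.sub a2).sub a3).congr_deriv ?_
    have hode : z * F ν (yy d z V) = p1 d z V - (1 - 2 * d * V) *
        (d * z ^ 2 * F (ν + 2) (yy d z V) / (d + 2)) / (d : ℝ) ^ 2 := by
      rw [hFid (yy d z V), e4νν]
      unfold p1
      rw [← hν]
      have : yy d z V = z * (1 - 2 * d * V) := rfl
      rw [show yy d z V / (d * (d + 2)) = (z * (1 - 2 * d * V)) / (d * (d + 2)) by rw [← this]]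
      field_simp
    have e : (2 : ℕ) - 1 = 1 := rfl
    simp only [e, pow_one, Nat.cast_ofNat]
    have e3 : 2 * p1 d z V ^ 2 - z * (2 * F ν (yy d z V) * p1 d z V)
        = 2 * p1 d z V * (p1 d z V - z * F ν (yy d z V)) := by ring
    rw [e3, hode]
    field_simp
    ring
  have hsup1 : ∀ s V, 0 ≤ V → V ≤ m → kk (phi d z) d z s V ≤ kk (phi d z) d z s (WW d s) := by
    intro s V hV0 hVm
    obtain ⟨hW0, hWm⟩ := hWmem s
    rw [hkk1 s V hV0 hVm, hkk1 s _ hW0 hWm]
    set K : ℝ → ℝ := fun V => 2 * psi d z V - z * (F ν (yy d z V)) ^ 2 -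
      (p1 d z V) ^ 2 * s ^ 2 / (d : ℝ) ^ 2 with hKdef
    change K V ≤ K (WW d s)
    have cK : Continuous K := continuous_iff_continuousAt.mpr fun y => (hK s y).continuousAt
    have hpp : ∀ x, 0 ≤ x → x ≤ m →
        0 ≤ 2 * p1 d z x * (d * z ^ 2 * F (ν + 2) (yy d z x) / (d + 2)) := by
      intro x h2 h3
      obtain ⟨h4, h5⟩ := yy_mem hd hz0 h2 h3
      have h6 := hF1pos _ h4 h5
      have h7 := hF2pos _ h4 h5
      have h8 : 0 < p1 d z x := by unfold p1; rw [← hν]; positivity
      positivity
    rcases le_total V (WW d s) with hVW | hVW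
    · have hmo : MonotoneOn K (Icc V (WW d s)) := by
        apply monotoneOn_of_deriv_nonneg (convex_Icc _ _) cK.continuousOn
        · intro x _
          exact (hK s x).differentiableAt.differentiableWithinAt
        · intro x hx
          rw [interior_Icc] at hx
          rw [(hK s x).deriv]
          have h2 := hpp x (hV0.trans hx.1.le) (hx.2.le.trans hWm)
          have h3 : 0 ≤ (1 - 2 * d * x) - s ^ 2 := by
            have h4 : x < (1 - s ^ 2) / (2 * (d : ℝ)) := by
              have h5 := hx.2
              unfold WW at h5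
              rcases lt_max_iff.mp h5 with h6 | h6
              · linarith [hx.1]
              · exact h6
            rw [lt_div_iff₀ (by positivity)] at h4
            linarith
          have := mul_nonneg h2 h3
          positivity
      exact hmo (left_mem_Icc.mpr hVW) (right_mem_Icc.mpr hVW) hVW
    · have hmo : AntitoneOn K (Icc (WW d s) V) := by
        apply antitoneOn_of_deriv_nonpos (convex_Icc _ _) cK.continuousOn
        · intro x _
          exact (hK s x).differentiableAt.differentiableWithinAt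
        · intro x hx
          rw [interior_Icc] at hx
          rw [(hK s x).deriv]
          have h2 := hpp x (hW0.trans hx.1.le) (hx.2.le.trans hVm)
          have h3 : (1 - 2 * d * x) - s ^ 2 ≤ 0 := by
            have h4 : (1 - s ^ 2) / (2 * (d : ℝ)) < x :=
              lt_of_le_of_lt (le_max_right _ _) hx.1
            rw [div_lt_iff₀ (by positivity)] at h4
            linarith
          have := mul_nonpos_of_nonneg_of_nonpos h2 h3
          exact div_nonpos_of_nonpos_of_nonneg this (by positivity)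
      exact hmo (left_mem_Icc.mpr hVW) (right_mem_Icc.mpr hVW) hVW
  have hsup2 : ∀ s V, m ≤ V → kk (phi d z) d z s V ≤ kk (phi d z) d z s m := by
    intro s V hV
    unfold kk
    rw [hderiv, hdm V hV, hdm m le_rfl, hphim, hphi2 V hV]
    have hcd : Continuous fun t => (dphi d z t) ^ 2 := cdphi.pow 2
    have e : ∫ t in (0 : ℝ)..V, (dphi d z t) ^ 2 = (∫ t in (0 : ℝ)..m, (dphi d z t) ^ 2) +
        ∫ t in m..V, (dphi d z t) ^ 2 :=
      (intervalIntegral.integral_add_adjacent_intervals (hcd.intervalIntegrable _ _)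
        (hcd.intervalIntegrable _ _)).symm
    have e2 : ∫ t in m..V, (dphi d z t) ^ 2 = z ^ 2 * (V - m) := by
      have : ∫ t in m..V, (dphi d z t) ^ 2 = ∫ _t in m..V, z ^ 2 := by
        apply intervalIntegral.integral_congr
        intro t ht
        rw [uIcc_of_le hV] at ht
        simp only
        rw [hdm t ht.1]
      rw [this, intervalIntegral.integral_const, smul_eq_mul]
      ring
    rw [e, e2]
    have h2 : 0 ≤ V - m := by linarith
    have h3 : 0 ≤ z * (z * (V - m)) ^ 2 := by positivity
    nlinarith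
  have hcW : Continuous (WW d) := by
    unfold WW
    fun_prop
  have hckk : Continuous fun s => kk (phi d z) d z s (WW d s) := by
    unfold kk
    rw [hderiv]
    have hcd : Continuous fun t => (dphi d z t) ^ 2 := cdphi.pow 2
    have c1 : Continuous fun V => ∫ t in (0 : ℝ)..V, (dphi d z t) ^ 2 :=
      intervalIntegral.continuous_primitive (fun a b => hcd.intervalIntegrable a b) 0
    have c2 := c1.comp hcW
    have c3 := cphi.comp hcW
    have c4 := cdphi.comp hcW
    exact ((c2.const_mul 2).sub ((c3.pow 2).const_mul z)).sub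
      (((c4.pow 2).mul (continuous_id.pow 2)).div_const _)
  refine ⟨phi d z, WW d, ?_⟩
  refine
    { zpos := hz0
      lpos := mul_pos hz0 (hF1pos z hz0.le le_rfl)
      c1 := ?_
      zero := by unfold phi; simp
      mono := by rw [hderiv]; exact hmono
      left := ?_
      le := ?_
      Wnn := fun s _ => (hWmem s).1
      sup := ?_
      W0 := ?_
      cont := hckk
      int := ?_ }
  · rw [contDiff_one_iff_deriv, hderiv]
    exact ⟨fun V => (hphid V).differentiableAt, cdphi⟩
  · intro t ht
    rw [hderiv]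
    unfold dphi p1
    rw [clp_of_le ht, hyy0]
  · intro t
    rw [hderiv]
    rcases le_total t m with h | h
    · exact (hmono h).trans_eq (hdm m le_rfl)
    · exact (hdm t h).le
  · intro s _ V hV
    rcases le_total V m with h | h
    · exact hsup1 s V hV h
    · exact (hsup2 s V h).trans (hsup1 s m hm0.le le_rfl)
  · intro s hs
    unfold WW
    apply max_eq_left
    apply div_nonpos_of_nonpos_of_nonneg _ (by positivity)
    nlinarith
  · -- the integral
    set A : ℝ → ℝ := fun s => 2 / d * (s ^ d * psi d z ((1 - s ^ 2) / (2 * (d : ℝ)))) -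
      z / d * (s ^ d * (F ν (z * s ^ 2) * F (ν + 1) (z * s ^ 2))) with hA
    set I : ℝ → ℝ := fun s => (2 * psi d z ((1 - s ^ 2) / (2 * (d : ℝ))) - z * (F ν (z * s ^ 2)) ^ 2 -
      (z * F (ν + 1) (z * s ^ 2)) ^ 2 * s ^ 2 / (d : ℝ) ^ 2) * s ^ (d - 1) with hI
    have hyW : ∀ s : ℝ, yy d z ((1 - s ^ 2) / (2 * (d : ℝ))) = z * s ^ 2 := by
      intro s
      unfold yy
      field_simp
      ring
    have hAd : ∀ s, HasDerivAt A (I s) s := by
      intro s
      have b0 : HasDerivAt (fun s : ℝ => (1 - s ^ 2) / (2 * (d : ℝ))) (-(s / d)) s := by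
        have := ((hasDerivAt_pow 2 s).const_sub 1).div_const (2 * (d : ℝ))
        refine this.congr_deriv ?_
        simp only [Nat.cast_ofNat, Nat.add_one_sub_one, pow_one]
        field_simp
      have b1 := (hpsid ((1 - s ^ 2) / (2 * (d : ℝ)))).comp s b0
      have b2 : HasDerivAt (fun s : ℝ => z * s ^ 2) (2 * z * s) s := by
        have := (hasDerivAt_pow 2 s).const_mul z
        refine this.congr_deriv ?_
        simp only [Nat.cast_ofNat, Nat.add_one_sub_one, pow_one]
        ring
      have b3 := (hFd (z * s ^ 2)).comp s b2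
      have b4 := (hF1d (z * s ^ 2)).comp s b2
      have b5 := hasDerivAt_pow d s
      have b6 := ((b5.mul b1).const_mul (2 / (d : ℝ))).sub
        ((b5.mul (b3.mul b4)).const_mul (z / (d : ℝ)))
      refine b6.congr_deriv ?_
      simp only [Function.comp_apply, Pi.mul_apply, hI]
      rw [show ν + 1 + 1 = ν + 2 by ring, e4ν, e4ν1]
      unfold p1
      rw [hyW s, ← hν]
      have hid := hFid (z * s ^ 2)
      rw [e4νν] at hid
      obtain ⟨k, hk⟩ : ∃ k, d = k + 1 := ⟨d - 1, by omega⟩
      have e1 : s ^ d = s ^ (d - 1) * s := by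
        rw [← pow_succ, Nat.sub_add_cancel hd]
      rw [e1]
      set X := s ^ (d - 1)
      set a := F (ν + 1) (z * s ^ 2)
      set b := F (ν + 2) (z * s ^ 2)
      set P := psi d z ((1 - s ^ 2) / (2 * (d : ℝ)))
      rw [hid]
      field_simp
      ring
    have cI : Continuous I := by
      have cpsi : Continuous (psi d z) :=
        continuous_iff_continuousAt.mpr fun y => (hpsid y).continuousAt
      have c0 : Continuous fun s : ℝ => (1 - s ^ 2) / (2 * (d : ℝ)) := by fun_prop
      have c2 : Continuous fun s : ℝ => z * s ^ 2 := by fun_prop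
      have c3 := cpsi.comp c0
      have c4 := cF.comp c2
      have c5 := cF1.comp c2
      exact (((c3.const_mul 2).sub ((c4.pow 2).const_mul z)).sub
        ((((c5.const_mul z).pow 2).mul (continuous_id.pow 2)).div_const _)).mul
        (continuous_id.pow (d - 1))
    have e : ∫ s in (0 : ℝ)..1, kk (phi d z) d z s (WW d s) * s ^ (d - 1) = ∫ s in (0 : ℝ)..1, I s := by
      apply intervalIntegral.integral_congr
      intro s hs
      rw [uIcc_of_le zero_le_one] at hs
      have hW : WW d s = (1 - s ^ 2) / (2 * (d : ℝ)) := by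
        unfold WW
        apply max_eq_right
        apply div_nonneg _ (by positivity)
        nlinarith [hs.1, hs.2]
      simp only [hI]
      have h2 := hWmem s
      rw [hkk1 s _ h2.1 h2.2, hW, hyW s]
      unfold p1
      rw [hyW s, ← hν]
    rw [e, intervalIntegral.integral_eq_sub_of_hasDerivAt (fun t _ => hAd t)
      (cI.intervalIntegrable _ _)]
    have a1 : A 1 = 0 := by
      simp only [hA]
      norm_num
      rw [hzF]
      have : psi d z 0 = 0 := by unfold psi; simp
      rw [this]
      simp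
    have a0 : A 0 = 0 := by
      simp only [hA]
      rw [zero_pow (by omega)]
      simp
    rw [a1, a0, sub_zero]

end Pool.Agent.W573.RKJ
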