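import Pool.Agent.W250.RKJ.Stm

set_option autoImplicit false

open MeasureTheory Metric Set Filter
open scoped ENNReal Topology

namespace Pool.Agent.W573.RKJ

open Pool.Agent.W250.RKJ

theorem finrankE (d : ℕ) : Module.finrank ℝ (EuclideanSpace ℝ (Fin d)) = d := by simp

theorem nontr {d : ℕ} (hd : 1 ≤ d) : Nontrivial (EuclideanSpace ℝ (Fin d)) :=
  Module.nontrivial_of_finrank_pos (R := ℝ) (by rw [finrankE]; omega)

theorem polar : SPOLAR := by
  intro d hd H hH
  have := nontr hd
  have h1 : ∫ x in ball (0 : EuclideanSpace ℝ (Fin d)) 1, H ‖x‖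
      = ∫ x : EuclideanSpace ℝ (Fin d), (Iio (1 : ℝ)).indicator H ‖x‖ := by
    rw [← integral_indicator measurableSet_ball]
    congr 1
    ext x
    by_cases hx : ‖x‖ < 1
    · rw [indicator_of_mem (by rwa [mem_ball_zero_iff]), indicator_of_mem (by exact hx)]
    · rw [indicator_of_notMem (by rwa [mem_ball_zero_iff]), indicator_of_notMem (by exact hx)]
  rw [h1, integral_fun_norm_addHaar, finrankE]
  have h2 : ∫ y in Ioi (0 : ℝ), y ^ (d - 1) • (Iio (1 : ℝ)).indicator H y
      = ∫ s in (0 : ℝ)..1, H s * s ^ (d - 1) := by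
    rw [intervalIntegral.integral_of_le zero_le_one, integral_Ioc_eq_integral_Ioo]
    have e : ∀ y : ℝ, y ^ (d - 1) • (Iio (1 : ℝ)).indicator H y
        = (Iio (1 : ℝ)).indicator (fun s => H s * s ^ (d - 1)) y := by
      intro y
      by_cases hy : y ∈ Iio (1 : ℝ)
      · rw [indicator_of_mem hy, indicator_of_mem hy, smul_eq_mul, mul_comm]
      · rw [indicator_of_notMem hy, indicator_of_notMem hy, smul_zero]
    simp_rw [e]
    rw [setIntegral_indicator measurableSet_Iio]
    congr 1
  rw [h2, nsmul_eq_mul, smul_eq_mul]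
  unfold w Measure.real
  ring

section rank

variable {d : ℕ}

theorem w_pos (d : ℕ) : 0 < w d := by
  unfold w
  exact ENNReal.toReal_pos (measure_ball_pos _ _ one_pos).ne' measure_ball_lt_top.ne

theorem vol_ball (hd : 1 ≤ d) {a : ℝ} (ha : 0 ≤ a) :
    volume (closedBall (0 : EuclideanSpace ℝ (Fin d)) a) = ENNReal.ofReal (w d * a ^ d) := by
  have := nontr hd
  rw [Measure.addHaar_closedBall _ _ ha, finrankE]
  unfold w
  rw [mul_comm, ENNReal.ofReal_mul ENNReal.toReal_nonneg, ENNReal.ofReal_toReal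
    measure_ball_lt_top.ne]

variable {u : EuclideanSpace ℝ (Fin d) → ℝ}

theorem pos_subset : {x | 0 < u x} ⊆ tsupport u := fun x hx =>
  subset_tsupport u (by rw [Function.mem_support]; exact (ne_of_gt hx))

theorem vol_fin (hc : HasCompactSupport u) {t : ℝ} (ht : 0 ≤ t) :
    volume {x | t < u x} < ⊤ := by
  refine lt_of_le_of_lt (measure_mono fun x hx => ?_) (hc.isCompact.measure_lt_top)
  exact pos_subset (lt_of_le_of_lt ht hx)

theorem mu_anti (hc : HasCompactSupport u) {s t : ℝ} (hs : 0 ≤ s) (hst : s ≤ t) :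
    mu u t ≤ mu u s := by
  unfold mu
  exact ENNReal.toReal_mono (vol_fin hc hs).ne (measure_mono fun x hx => lt_of_le_of_lt hst hx)

theorem mu_nonneg (t : ℝ) : 0 ≤ mu u t := ENNReal.toReal_nonneg

theorem ofReal_mu (hc : HasCompactSupport u) {t : ℝ} (ht : 0 ≤ t) :
    ENNReal.ofReal (mu u t) = volume {x | t < u x} :=
  ENNReal.ofReal_toReal (vol_fin hc ht).ne

/-- the volume of `{0 < u ≤ t}` -/
theorem vol_le (hu : Continuous u) (hc : HasCompactSupport u) {t b : ℝ} (ht : 0 ≤ t)
    (hb : b ≤ mu u t) (h0 : mu u 0 ≤ w d) :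
    volume {x | 0 < u x ∧ u x ≤ t} ≤ ENNReal.ofReal (w d - b) := by
  have h1 : {x | 0 < u x ∧ u x ≤ t} = {x | 0 < u x} \ {x | t < u x} := by
    ext x
    simp only [mem_ofPred_eq, Set.mem_sdiff, not_lt]
  have hm : MeasurableSet {x | t < u x} := (isOpen_lt continuous_const hu).measurableSet
  have hsub : {x | t < u x} ⊆ {x | 0 < u x} := fun x hx => lt_of_le_of_lt ht hx
  rw [h1, measure_sdiff hsub hm.nullMeasurableSet
    (vol_fin hc ht).ne, ← ofReal_mu hc ht, ← ofReal_mu hc le_rfl,
    ← ENNReal.ofReal_sub _ (mu_nonneg t)]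
  exact ENNReal.ofReal_le_ofReal (by linarith)

theorem vol_T (hu : Continuous u) (hc : HasCompactSupport u) {b : ℝ} (hb : 0 < b)
    (h0 : mu u 0 ≤ w d) (hbw : b ≤ w d) :
    volume {x | 0 < u x ∧ b ≤ mu u (u x)} ≤ ENNReal.ofReal (w d - b) := by
  set T : Set ℝ := {t | 0 < t ∧ b ≤ mu u t} with hT
  rcases T.eq_empty_or_nonempty with hTe | hTn
  · have : {x | 0 < u x ∧ b ≤ mu u (u x)} = ∅ := by
      rw [eq_empty_iff_forall_notMem]
      intro x hx
      have : u x ∈ T := hx
      rw [hTe] at this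
      exact this
    rw [this, measure_empty]
    exact bot_le
  · -- bounded above
    obtain ⟨M, hM⟩ : ∃ M : ℝ, ∀ x, u x ≤ M := by
      obtain ⟨C, hC⟩ := hu.bounded_above_of_compact_support hc
      exact ⟨C, fun x => (le_abs_self _).trans (hC x)⟩
    have hbdd : BddAbove T := by
      refine ⟨M, fun t ht => ?_⟩
      by_contra hcon
      push Not at hcon
      have : mu u t = 0 := by
        unfold mu
        have : {x | t < u x} = ∅ := by
          rw [eq_empty_iff_forall_notMem]
          intro x hx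
          exact absurd (lt_of_le_of_lt (hM x) hcon) (not_lt.mpr (le_of_lt hx))
        rw [this]
        simp
      have h2 := ht.2
      rw [this] at h2
      linarith
    by_cases hmem : sSup T ∈ T
    · refine (measure_mono fun x hx => ?_).trans (vol_le hu hc hmem.1.le hmem.2 h0)
      exact ⟨hx.1, le_csSup hbdd (show u x ∈ T from hx)⟩
    · obtain ⟨v, hv1, hv2, hv3⟩ := exists_seq_tendsto_sSup hTn hbdd
      have hsub : {x | 0 < u x ∧ b ≤ mu u (u x)} ⊆ ⋃ n, {x | 0 < u x ∧ u x ≤ v n} := by
        intro x hx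
        have hxT : u x ∈ T := hx
        have hlt : u x < sSup T := lt_of_le_of_ne (le_csSup hbdd hxT) fun h => hmem (h ▸ hxT)
        obtain ⟨n, hn⟩ := ((hv2.eventually (lt_mem_nhds hlt))).exists
        rw [mem_iUnion]
        exact ⟨n, hx.1, hn.le⟩
      refine (measure_mono hsub).trans ?_
      have hmono : Monotone fun n => {x | 0 < u x ∧ u x ≤ v n} := by
        intro m n hmn x hx
        exact ⟨hx.1, hx.2.trans (hv1 hmn)⟩
      rw [hmono.measure_iUnion]
      exact iSup_le fun n => vol_le hu hc (hv3 n).1.le (hv3 n).2 h0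

theorem rad_nonneg (t : ℝ) : 0 ≤ rad u t := Real.rpow_nonneg (div_nonneg (mu_nonneg t) (w_pos d).le) _

theorem rad_le_one (hd : 1 ≤ d) (hc : HasCompactSupport u) (h0 : mu u 0 ≤ w d) {t : ℝ}
    (ht : 0 ≤ t) : rad u t ≤ 1 := by
  unfold rad
  refine Real.rpow_le_one (div_nonneg (mu_nonneg t) (w_pos d).le) ?_ (by positivity)
  rw [div_le_one (w_pos d)]
  exact (mu_anti hc le_rfl ht).trans h0

theorem rad_pow (hd : 1 ≤ d) (t : ℝ) : (rad u t) ^ d = mu u t / w d := by
  unfold rad
  have hd' : (d : ℝ) ≠ 0 := by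
    have : (1 : ℝ) ≤ d := by exact_mod_cast hd
    linarith
  rw [← Real.rpow_natCast, ← Real.rpow_mul (div_nonneg (mu_nonneg t) (w_pos d).le),
    inv_mul_cancel₀ hd', Real.rpow_one]

theorem rad_meas (hu : Continuous u) (hc : HasCompactSupport u) :
    Measurable fun x : EuclideanSpace ℝ (Fin d) => rad u (max (u x) 0) := by
  have h1 : Antitone fun t : ℝ => rad u (max t 0) := by
    intro s t hst
    unfold rad
    apply Real.rpow_le_rpow (div_nonneg (mu_nonneg _) (w_pos d).le) _ (by positivity)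
    apply div_le_div_of_nonneg_right _ (w_pos d).le
    exact mu_anti hc (le_max_right _ _) (max_le_max hst le_rfl)
  exact h1.measurable.comp hu.measurable

end rank

theorem rank : SRANK := by
  intro d hd u hu1 hc h0 H hH hHn
  have hu : Continuous u := hu1.continuous
  have := nontr hd
  set H' : ℝ → ℝ := fun s => H (max s 0) with hH'
  have hmono : Monotone H' := fun s t hst =>
    hH (mem_Ici.mpr (le_max_right s 0)) (mem_Ici.mpr (le_max_right t 0)) (max_le_max hst le_rfl)
  have hH'n : ∀ s, 0 ≤ H' s := fun s => hHn _ (le_max_right _ _)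
  set A : EuclideanSpace ℝ (Fin d) → ℝ := fun x => H' (rad u (max (u x) 0)) with hA
  have hAm : Measurable A := hmono.measurable.comp (rad_meas hu hc)
  have hP : MeasurableSet {x | 0 < u x} := (isOpen_lt continuous_const hu).measurableSet
  have e1 : ∫ x in {x | 0 < u x}, H (rad u (u x)) = ∫ x in {x | 0 < u x}, A x := by
    apply setIntegral_congr_fun hP
    intro x hx
    have hx' : (0 : ℝ) < u x := hx
    simp only [hA, hH', max_eq_left hx'.le, max_eq_left (rad_nonneg (u := u) (u x))]
  have e2 : ∫ x in ball (0 : EuclideanSpace ℝ (Fin d)) 1, H ‖x‖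
      = ∫ x in ball (0 : EuclideanSpace ℝ (Fin d)) 1, H' ‖x‖ := by
    apply setIntegral_congr_fun measurableSet_ball
    intro x _
    simp only [hH', max_eq_left (norm_nonneg x)]
  have hBm : Measurable fun x : EuclideanSpace ℝ (Fin d) => H' ‖x‖ :=
    hmono.measurable.comp measurable_norm
  rw [e1, e2, integral_eq_lintegral_of_nonneg_ae (Eventually.of_forall fun x => hH'n _)
    hAm.aestronglyMeasurable, integral_eq_lintegral_of_nonneg_ae
    (Eventually.of_forall fun x => hH'n _) hBm.aestronglyMeasurable]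
  have hfin : ∫⁻ x in ball (0 : EuclideanSpace ℝ (Fin d)) 1, ENNReal.ofReal (H' ‖x‖) ≠ ⊤ := by
    refine ne_top_of_le_ne_top (b := ENNReal.ofReal (H' 1) * volume (ball (0 :
      EuclideanSpace ℝ (Fin d)) 1)) (ENNReal.mul_ne_top ENNReal.ofReal_ne_top
      measure_ball_lt_top.ne) ?_
    rw [← setLIntegral_const]
    apply setLIntegral_mono measurable_const
    intro x hx
    rw [mem_ball_zero_iff] at hx
    exact ENNReal.ofReal_le_ofReal (hmono hx.le)
  apply ENNReal.toReal_mono hfin
  rw [lintegral_eq_lintegral_meas_lt _ (Eventually.of_forall fun x => hH'n _) hAm.aemeasurable,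
    lintegral_eq_lintegral_meas_lt _ (Eventually.of_forall fun x => hH'n _) hBm.aemeasurable]
  apply lintegral_mono
  intro s
  simp only
  rw [Measure.restrict_apply (measurableSet_lt measurable_const hAm),
    Measure.restrict_apply (measurableSet_lt measurable_const hBm)]
  -- the up-set
  set J : Set ℝ := {ρ | 0 ≤ ρ ∧ s < H' ρ} with hJ
  rcases J.eq_empty_or_nonempty with hJe | hJn
  · have : {x | s < A x} ∩ {x | 0 < u x} = ∅ := by
      rw [eq_empty_iff_forall_notMem]
      rintro x ⟨hx1, hx2⟩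
      have : rad u (max (u x) 0) ∈ J := ⟨rad_nonneg _, hx1⟩
      rw [hJe] at this
      exact this
    rw [this, measure_empty]
    exact bot_le
  · have hbelow : BddBelow J := ⟨0, fun ρ hρ => hρ.1⟩
    set a : ℝ := sInf J with ha
    have ha0 : 0 ≤ a := le_csInf hJn fun ρ hρ => hρ.1
    have hup : ∀ ρ, a < ρ → s < H' ρ := by
      intro ρ hρ
      obtain ⟨ρ', h1, h2⟩ := exists_lt_of_csInf_lt hJn hρ
      exact lt_of_lt_of_le h1.2 (hmono h2.le)
    have hsubL : {x | s < A x} ∩ {x | 0 < u x} ⊆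
        {x | 0 < u x ∧ w d * a ^ d ≤ mu u (u x)} := by
      rintro x ⟨hx1, hx2⟩
      refine ⟨hx2, ?_⟩
      have hx2' : (0 : ℝ) < u x := hx2
      have hmem : rad u (max (u x) 0) ∈ J := ⟨rad_nonneg _, hx1⟩
      rw [max_eq_left hx2'.le] at hmem
      have h3 : a ≤ rad u (u x) := csInf_le hbelow hmem
      have h4 : a ^ d ≤ (rad u (u x)) ^ d := pow_le_pow_left₀ ha0 h3 d
      rw [rad_pow hd, le_div_iff₀ (w_pos d)] at h4
      linarith
    have hsubR : ball (0 : EuclideanSpace ℝ (Fin d)) 1 \ closedBall 0 a ⊆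
        {x | s < H' ‖x‖} ∩ ball 0 1 := by
      rintro x ⟨hx1, hx2⟩
      refine ⟨hup _ ?_, hx1⟩
      rw [mem_closedBall_zero_iff, not_le] at hx2
      exact hx2
    have hR : ENNReal.ofReal (w d - w d * a ^ d) ≤
        volume (ball (0 : EuclideanSpace ℝ (Fin d)) 1 \ closedBall 0 a) := by
      refine le_trans ?_ (le_measure_diff)
      rw [vol_ball hd ha0, ENNReal.ofReal_sub _ (mul_nonneg (w_pos d).le (pow_nonneg ha0 d))]
      unfold w
      rw [ENNReal.ofReal_toReal measure_ball_lt_top.ne]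
    have hL : volume {x | 0 < u x ∧ w d * a ^ d ≤ mu u (u x)} ≤
        ENNReal.ofReal (w d - w d * a ^ d) := by
      rcases ha0.eq_or_lt with h | h
      · rw [← h, zero_pow (by omega), mul_zero, sub_zero]
        calc volume {x | 0 < u x ∧ 0 ≤ mu u (u x)} ≤ volume {x | 0 < u x} :=
              measure_mono fun x hx => hx.1
          _ = ENNReal.ofReal (mu u 0) := (ofReal_mu hc le_rfl).symm
          _ ≤ _ := ENNReal.ofReal_le_ofReal h0
      · rcases le_or_gt (w d * a ^ d) (w d) with h1 | h1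
        · exact vol_T hu hc (mul_pos (w_pos d) (pow_pos h d)) h0 h1
        · have : {x | 0 < u x ∧ w d * a ^ d ≤ mu u (u x)} = ∅ := by
            rw [eq_empty_iff_forall_notMem]
            rintro x ⟨hx1, hx2⟩
            have := mu_anti hc le_rfl hx1.le
            linarith
          rw [this, measure_empty]
          exact bot_le
    exact (measure_mono hsubL).trans (hL.trans (hR.trans (measure_mono hsubR)))

end Pool.Agent.W573.RKJ
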