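import Pool.Agent.W250.RKJ.Stm

set_option autoImplicit false

open MeasureTheory Metric Set Filter
open scoped ENNReal Topology

namespace Pool.Agent.W573.RKJ

open Pool.Agent.W250.RKJ

/-- the cut-off `r ↦ r^2/(r+e)` for `r ≥ 0`, and `0` for `r ≤ 0` -/
noncomputable def sg (e r : ℝ) : ℝ := if r ≤ 0 then 0 else r ^ 2 / (r + e)

noncomputable def sg' (e r : ℝ) : ℝ := if r ≤ 0 then 0 else 1 - e ^ 2 / (r + e) ^ 2

theorem sg_deriv {e : ℝ} (he : 0 < e) (r : ℝ) : HasDerivAt (sg e) (sg' e r) r := by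
  rcases lt_trichotomy r 0 with hr | hr | hr
  · have h1 : sg e =ᶠ[𝓝 r] fun _ => 0 := by
      filter_upwards [gt_mem_nhds hr] with s hs
      unfold sg
      rw [if_pos (le_of_lt hs)]
    have h2 : sg' e r = 0 := by unfold sg'; rw [if_pos hr.le]
    rw [h2]
    exact (hasDerivAt_const r (0 : ℝ)).congr_of_eventuallyEq h1
  · subst hr
    have h2 : sg' e 0 = 0 := by unfold sg'; rw [if_pos le_rfl]
    rw [h2, hasDerivAt_iff_isLittleO]
    have h3 : sg e 0 = 0 := by unfold sg; rw [if_pos le_rfl]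
    simp only [h3, sub_zero, smul_zero]
    rw [Asymptotics.isLittleO_iff]
    intro c hc
    have hball : Metric.ball (0 : ℝ) (c * e) ∈ 𝓝 (0 : ℝ) := Metric.ball_mem_nhds 0 (by positivity)
    filter_upwards [hball] with x hx
    rw [mem_ball_zero_iff, Real.norm_eq_abs] at hx
    unfold sg
    split_ifs with h
    · simp only [norm_zero]
      positivity
    · push Not at h
      rw [abs_of_pos h] at hx
      rw [Real.norm_eq_abs, Real.norm_eq_abs, abs_of_pos h, abs_of_nonneg (by positivity),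
        div_le_iff₀ (by positivity)]
      nlinarith
  · have h1 : sg e =ᶠ[𝓝 r] fun s => s ^ 2 / (s + e) := by
      filter_upwards [lt_mem_nhds hr] with s hs
      unfold sg
      rw [if_neg (not_le.mpr hs)]
    have h2 : sg' e r = 1 - e ^ 2 / (r + e) ^ 2 := by unfold sg'; rw [if_neg (not_le.mpr hr)]
    have h3 : HasDerivAt (fun s : ℝ => s ^ 2 / (s + e))
        ((2 * r * (r + e) - r ^ 2 * 1) / (r + e) ^ 2) r := by
      have h4 := (hasDerivAt_pow 2 r).div ((hasDerivAt_id r).add_const e)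
        (by simp only [id]; positivity)
      refine h4.congr_deriv ?_
      simp
    have h5 := h3.congr_of_eventuallyEq h1
    rw [h2]
    refine h5.congr_deriv ?_
    field_simp
    ring

theorem sg'_cont {e : ℝ} (he : 0 < e) : Continuous (sg' e) := by
  have h : sg' e = fun r => 1 - e ^ 2 / (max r 0 + e) ^ 2 := by
    funext r
    unfold sg'
    split_ifs with h
    · rw [max_eq_right h, zero_add]
      field_simp
      ring
    · rw [max_eq_left (le_of_lt (not_le.mp h))]
  rw [h]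
  refine continuous_const.sub (continuous_const.div (by fun_prop) ?_)
  intro r
  have : 0 ≤ max r 0 := le_max_right _ _
  positivity

theorem sg'_mem {e : ℝ} (he : 0 < e) (r : ℝ) : 0 ≤ sg' e r ∧ sg' e r ≤ 1 := by
  unfold sg'
  split_ifs with h
  · exact ⟨le_rfl, zero_le_one⟩
  · push Not at h
    constructor
    · rw [sub_nonneg, div_le_one (by positivity)]
      exact pow_le_pow_left₀ he.le (by linarith) 2
    · have : 0 ≤ e ^ 2 / (r + e) ^ 2 := by positivity
      linarith

theorem sg_lower {e : ℝ} (he : 0 < e) (r : ℝ) : r - e ≤ sg e r := by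
  unfold sg
  split_ifs with h
  · linarith
  · push Not at h
    rw [le_div_iff₀ (by positivity)]
    nlinarith

theorem sg_nonneg {e : ℝ} (he : 0 < e) (r : ℝ) : 0 ≤ sg e r := by
  unfold sg
  split_ifs with h
  · exact le_rfl
  · push Not at h
    positivity

variable {d : ℕ}

noncomputable def uu (d : ℕ) (e : ℝ) (x : EuclideanSpace ℝ (Fin d)) : ℝ := sg e (1 - ‖x‖ ^ 2 - e)

theorem uu_deriv {e : ℝ} (he : 0 < e) (x : EuclideanSpace ℝ (Fin d)) :
    HasFDerivAt (uu d e) (-(sg' e (1 - ‖x‖ ^ 2 - e) • (2 : ℝ) • innerSL ℝ x)) x := by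
  have h1 : HasFDerivAt (fun x : EuclideanSpace ℝ (Fin d) => 1 - ‖x‖ ^ 2 - e)
      (-((2 : ℝ) • innerSL ℝ x)) x := by
    have h0 := ((hasStrictFDerivAt_norm_sq x).hasFDerivAt.const_sub 1).sub_const e
    have e2 : (2 : ℕ) • (innerSL ℝ x) = (2 : ℝ) • (innerSL ℝ x) := by
      rw [two_smul, two_smul]
    rw [e2] at h0
    exact h0
  have h2 := (sg_deriv he (1 - ‖x‖ ^ 2 - e)).comp_hasFDerivAt x h1
  have : -(sg' e (1 - ‖x‖ ^ 2 - e) • (2 : ℝ) • innerSL ℝ x)
      = sg' e (1 - ‖x‖ ^ 2 - e) • (-((2 : ℝ) • innerSL ℝ x)) := by rw [smul_neg]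
  rw [this]
  exact h2

theorem uu_c1 {e : ℝ} (he : 0 < e) : ContDiff ℝ 1 (uu d e) := by
  rw [contDiff_one_iff_fderiv]
  refine ⟨fun x => (uu_deriv he x).differentiableAt, ?_⟩
  have : fderiv ℝ (uu d e) = fun x => -(sg' e (1 - ‖x‖ ^ 2 - e) • (2 : ℝ) • innerSL ℝ x) :=
    funext fun x => (uu_deriv he x).fderiv
  rw [this]
  have h1 : Continuous fun x : EuclideanSpace ℝ (Fin d) => sg' e (1 - ‖x‖ ^ 2 - e) :=
    (sg'_cont he).comp (by fun_prop)
  exact (h1.smul ((innerSL ℝ).continuous.const_smul (2 : ℝ))).neg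

theorem uu_supp {e : ℝ} (he : 0 < e) (he1 : e < 1) :
    tsupport (uu d e) ⊆ closedBall 0 (Real.sqrt (1 - e)) := by
  apply closure_minimal _ isClosed_closedBall
  intro x hx
  rw [mem_closedBall_zero_iff]
  by_contra hcon
  push Not at hcon
  apply hx
  unfold uu sg
  rw [if_pos]
  have h1 : 1 - e < ‖x‖ ^ 2 := (Real.sqrt_lt' (lt_of_le_of_lt (Real.sqrt_nonneg _) hcon)).mp hcon
  linarith

theorem finrankE' (d : ℕ) : Module.finrank ℝ (EuclideanSpace ℝ (Fin d)) = d := by simp

theorem test (hP : SPOLAR) : STEST := by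
  intro d hd ε hε
  have : Nontrivial (EuclideanSpace ℝ (Fin d)) :=
    Module.nontrivial_of_finrank_pos (R := ℝ) (by rw [finrankE']; omega)
  have hd' : (0 : ℝ) < d := by exact_mod_cast hd
  have hw : 0 < w d := by
    unfold w
    exact ENNReal.toReal_pos (measure_ball_pos _ _ one_pos).ne' measure_ball_lt_top.ne
  -- the limit
  obtain ⟨e, he0, he1, hlim⟩ : ∃ e : ℝ, 0 < e ∧ e < 1 / (d + 2) ∧
      TB d - ε ≤ (2 * w d / (d + 2) - 2 * e * w d) ^ 2 / (4 * d * w d / (d + 2)) := by
    have hcont : ContinuousAt (fun e : ℝ => (2 * w d / (d + 2) - 2 * e * w d) ^ 2 /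
        (4 * d * w d / (d + 2))) 0 := by
      fun_prop
    have h0 : (2 * w d / (d + 2) - 2 * 0 * w d) ^ 2 / (4 * d * w d / (d + 2)) = TB d := by
      unfold TB
      field_simp
      ring
    have h1 : ∀ᶠ e in 𝓝 (0 : ℝ), TB d - ε < (2 * w d / (d + 2) - 2 * e * w d) ^ 2 /
        (4 * d * w d / (d + 2)) := by
      apply hcont.eventually (lt_mem_nhds _)
      show TB d - ε < (2 * w d / (d + 2) - 2 * 0 * w d) ^ 2 / (4 * d * w d / (d + 2))
      rw [h0]
      linarith
    have h2 : ∀ᶠ e in 𝓝[>] (0 : ℝ), TB d - ε < (2 * w d / (d + 2) - 2 * e * w d) ^ 2 /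
        (4 * d * w d / (d + 2)) := nhdsWithin_le_nhds h1
    have h3 : ∀ᶠ e in 𝓝[>] (0 : ℝ), e < 1 / ((d : ℝ) + 2) :=
      nhdsWithin_le_nhds (gt_mem_nhds (by positivity))
    obtain ⟨e, h4, h5, h6⟩ := (h2.and (h3.and self_mem_nhdsWithin)).exists
    exact ⟨e, h6, h5, h4.le⟩
  have he1' : e < 1 := by
    refine he1.trans_le ?_
    rw [div_le_one (by positivity)]
    linarith
  have he13 : e < 1 / 3 := by
    refine he1.trans_le ?_
    apply one_div_le_one_div_of_le (by norm_num)
    have : (1 : ℝ) ≤ d := by exact_mod_cast hd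
    linarith
  have hsq : Real.sqrt (1 - e) < 1 := by
    rw [Real.sqrt_lt' one_pos]
    linarith
  have hts : tsupport (uu d e) ⊆ ball 0 1 := fun x hx => by
    have := uu_supp he0 he1' hx
    rw [mem_closedBall_zero_iff] at this
    rw [mem_ball_zero_iff]
    linarith
  have hcs : HasCompactSupport (uu d e) :=
    HasCompactSupport.intro' (isCompact_closedBall (0 : EuclideanSpace ℝ (Fin d))
      (Real.sqrt (1 - e))) isClosed_closedBall fun x hx => by
        by_contra hcon
        exact hx (uu_supp he0 he1' (subset_tsupport _ hcon))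
  have hc1 := uu_c1 (d := d) he0
  have hnorm : ∀ x : EuclideanSpace ℝ (Fin d), ‖fderiv ℝ (uu d e) x‖ =
      sg' e (1 - ‖x‖ ^ 2 - e) * (2 * ‖x‖) := by
    intro x
    rw [(uu_deriv he0 x).fderiv, norm_neg, norm_smul, norm_smul, innerSL_apply_norm,
      Real.norm_eq_abs, abs_of_nonneg (sg'_mem he0 _).1]
    norm_num
  -- a point where the derivative does not vanish
  obtain ⟨v, hv⟩ := exists_norm_eq (EuclideanSpace ℝ (Fin d)) (show (0 : ℝ) ≤ 1 / 2 by norm_num)
  have hv2 : (0 : ℝ) < 1 - ‖v‖ ^ 2 - e := by rw [hv]; nlinarith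
  have hne : uu d e ≠ 0 := by
    intro h
    have h1 := congrFun h v
    unfold uu sg at h1
    rw [if_neg (not_le.mpr hv2)] at h1
    simp only [Pi.zero_apply] at h1
    have : 0 < (1 - ‖v‖ ^ 2 - e) ^ 2 / (1 - ‖v‖ ^ 2 - e + e) := by positivity
    linarith
  have hDcont : Continuous fun x => ‖fderiv ℝ (uu d e) x‖ ^ 2 :=
    ((hc1.continuous_fderiv one_ne_zero).norm).pow 2
  have hDcs : HasCompactSupport fun x => ‖fderiv ℝ (uu d e) x‖ ^ 2 := by
    have := (hcs.fderiv (𝕜 := ℝ)).norm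
    exact this.comp_left (g := fun t : ℝ => t ^ 2) (by norm_num)
  have hDpos : 0 < ∫ x, ‖fderiv ℝ (uu d e) x‖ ^ 2 := by
    apply hDcont.integral_pos_of_hasCompactSupport_nonneg_nonzero hDcs (fun x => sq_nonneg _)
      (x := v)
    rw [hnorm]
    have h1 : 0 < sg' e (1 - ‖v‖ ^ 2 - e) := by
      unfold sg'
      rw [if_neg (not_le.mpr hv2), sub_pos, div_lt_one (by positivity)]
      exact pow_lt_pow_left₀ (by linarith) he0.le two_ne_zero
    have h2 : 0 < ‖v‖ := by rw [hv]; norm_num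
    positivity
  -- upper bound of the Dirichlet integral
  have hcontn : Continuous fun s : ℝ => 4 * s ^ 2 := by fun_prop
  have hI1 : ∫ x in ball (0 : EuclideanSpace ℝ (Fin d)) 1, (4 : ℝ) * ‖x‖ ^ 2 = 4 * d * w d / (d + 2) := by
    rw [hP d hd (fun s => 4 * s ^ 2) hcontn]
    have e1 : ∫ s in (0 : ℝ)..1, (4 : ℝ) * s ^ 2 * s ^ (d - 1) = 4 / ((d : ℝ) + 2) := by
      have : (fun s : ℝ => (4 : ℝ) * s ^ 2 * s ^ (d - 1)) = fun s => (4 : ℝ) * s ^ (d + 1) := by
        funext s
        rw [mul_assoc, ← pow_add]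
        congr 2
        omega
      rw [this, intervalIntegral.integral_const_mul, integral_pow]
      push_cast
      simp
      field_simp
      ring
    rw [e1]
    ring
  have hI2 : ∫ x in ball (0 : EuclideanSpace ℝ (Fin d)) 1, (1 - ‖x‖ ^ 2 - 2 * e)
      = 2 * w d / (d + 2) - 2 * e * w d := by
    rw [hP d hd (fun s => 1 - s ^ 2 - 2 * e) (by fun_prop)]
    have e1 : ∫ s in (0 : ℝ)..1, (1 - s ^ 2 - 2 * e) * s ^ (d - 1)
        = (1 - 2 * e) / d - 1 / (d + 2) := by
      have : (fun s : ℝ => (1 - s ^ 2 - 2 * e) * s ^ (d - 1))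
          = fun s => (1 - 2 * e) * s ^ (d - 1) - s ^ (d + 1) := by
        funext s
        have : s ^ (d + 1) = s ^ 2 * s ^ (d - 1) := by
          rw [← pow_add]
          congr 1
          omega
        rw [this]
        ring
      rw [this, intervalIntegral.integral_sub
        (Continuous.intervalIntegrable (by fun_prop) _ _)
        (Continuous.intervalIntegrable (by fun_prop) _ _),
        intervalIntegral.integral_const_mul, integral_pow, integral_pow]
      have h2 : ((d - 1 : ℕ) : ℝ) + 1 = d := by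
        rw [Nat.cast_sub hd]
        ring
      rw [h2, Nat.sub_add_cancel hd, one_pow, one_pow, zero_pow (by omega), zero_pow (by omega)]
      push_cast
      rw [sub_zero]
      ring
    rw [e1]
    field_simp
    ring
  have hintball : ∀ f : EuclideanSpace ℝ (Fin d) → ℝ, Continuous f →
      IntegrableOn f (ball 0 1) := fun f hf =>
    (hf.continuousOn.integrableOn_compact (isCompact_closedBall (0 : EuclideanSpace ℝ (Fin d)) 1)).mono_set
      ball_subset_closedBall
  have hU : ∫ x, ‖fderiv ℝ (uu d e) x‖ ^ 2 ≤ 4 * d * w d / (d + 2) := by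
    rw [← hI1]
    have h1 : ∫ x, ‖fderiv ℝ (uu d e) x‖ ^ 2
        = ∫ x in ball (0 : EuclideanSpace ℝ (Fin d)) 1, ‖fderiv ℝ (uu d e) x‖ ^ 2 := by
      rw [setIntegral_eq_integral_of_forall_compl_eq_zero]
      intro x hx
      have : x ∉ tsupport (uu d e) := fun h => hx (hts h)
      have h3 : fderiv ℝ (uu d e) x = 0 := by
        by_contra hcon
        exact this (support_fderiv_subset ℝ hcon)
      rw [h3]
      simp
    rw [h1]
    apply setIntegral_mono_on (hintball _ hDcont) (hintball _ (by fun_prop)) measurableSet_ball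
    intro x _
    rw [hnorm]
    have h2 := sg'_mem he0 (1 - ‖x‖ ^ 2 - e)
    have h3 : (sg' e (1 - ‖x‖ ^ 2 - e)) ^ 2 ≤ 1 := pow_le_one₀ h2.1 h2.2
    have h4 : 0 ≤ 4 * ‖x‖ ^ 2 := by positivity
    nlinarith
  have hL : 2 * w d / (d + 2) - 2 * e * w d ≤ ∫ x, uu d e x := by
    rw [← hI2]
    have h1 : ∫ x, uu d e x = ∫ x in ball (0 : EuclideanSpace ℝ (Fin d)) 1, uu d e x := by
      rw [setIntegral_eq_integral_of_forall_compl_eq_zero]
      intro x hx
      by_contra hcon
      exact hx (hts (subset_tsupport _ hcon))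
    rw [h1]
    apply setIntegral_mono_on (hintball _ (by fun_prop)) (hintball _ hc1.continuous)
      measurableSet_ball
    intro x _
    have := sg_lower he0 (1 - ‖x‖ ^ 2 - e)
    unfold uu
    linarith
  have hLn : 0 ≤ 2 * w d / (d + 2) - 2 * e * w d := by
    have h1 : e * (d + 2) < 1 := by
      rw [lt_div_iff₀ (by positivity)] at he1
      exact he1
    have h2 : 2 * w d / (d + 2) - 2 * e * w d = 2 * w d * (1 - e * (d + 2)) / (d + 2) := by
      field_simp
    rw [h2]
    have : 0 < 1 - e * (d + 2) := by linarith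
    positivity
  refine ⟨uu d e, hc1, hcs, hts, hne, hlim.trans ?_⟩
  apply div_le_div₀ (sq_nonneg _) (pow_le_pow_left₀ hLn hL 2) hDpos hU

end Pool.Agent.W573.RKJ
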