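import Pool.Agent.W250.RKJ.Stm

set_option autoImplicit false

open MeasureTheory Metric Set

namespace Pool.Agent.W573.RKJ

open Pool.Agent.W250.RKJ

theorem conc {G x0 lam' : ℝ} (hG : 1 ≤ G) (hx1 : G * x0 < 1) (hx0 : 0 < x0)
    (h0 : 0 ≤ lam') (h1 : lam' ≤ 1) :
    (1 - G * x0) ^ lam' ≤ 1 - G * (1 - (1 - x0) ^ lam') := by
  have hG0 : 0 < G := by linarith
  have hc := Real.concaveOn_rpow h0 h1
  have hw1 : 0 ≤ 1 - 1 / G := by
    rw [sub_nonneg, div_le_one hG0]; exact hG
  have hw2 : 0 ≤ 1 / G := by positivity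
  have key := hc.2 (show (1 : ℝ) ∈ Ici (0 : ℝ) from mem_Ici.mpr zero_le_one)
    (show (1 - G * x0) ∈ Ici (0 : ℝ) from by rw [mem_Ici]; linarith) hw1 hw2 (by ring)
  simp only [smul_eq_mul, Real.one_rpow] at key
  have e : (1 - 1 / G) * 1 + 1 / G * (1 - G * x0) = 1 - x0 := by field_simp; ring
  rw [e] at key
  have h2 := mul_le_mul_of_nonneg_left key hG0.le
  have e2 : G * ((1 - 1 / G) * 1 + 1 / G * (1 - G * x0) ^ lam') = G - 1 + (1 - G * x0) ^ lam' := by
    field_simp
  rw [e2] at h2
  linarith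

theorem thr : STHR := by
  intro d z G y0 q L T hd hz hG hy0 hy1 hL hT hTB hq hA hw hq1 hq2
  have hd' : (0 : ℝ) < d := by exact_mod_cast hd
  have hTB0 : 0 < TB d := lt_of_lt_of_le hT hTB
  have hG0 : 0 < G := by linarith
  set τ : ℝ := T / TB d with hτ
  have hτ0 : 0 < τ := by positivity
  have hτ1 : τ ≤ 1 := by rw [hτ, div_le_one hTB0]; exact hTB
  have hTe : T = TB d * τ := by rw [hτ]; field_simp
  set x0 : ℝ := y0 / G with hx0
  have hx00 : 0 < x0 := by positivity
  have hGx0 : G * x0 = y0 := by rw [hx0]; field_simp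
  have hx01 : x0 < 1 := by
    rw [hx0, div_lt_one hG0]; linarith
  set s0 : ℝ := -Real.log (1 - x0) with hs0
  have hs00 : 0 < s0 := by
    rw [hs0]
    have := Real.log_neg (show 0 < 1 - x0 by linarith) (by linarith)
    linarith
  have hTq : T ^ q = TB d ^ q * τ ^ q := by rw [hTe, Real.mul_rpow hTB0.le hτ0.le]
  have hTBq : 0 < TB d ^ q := Real.rpow_pos_of_pos hTB0 _
  rcases le_or_gt (G * (1 - τ)) y0 with hc | hc
  · -- first case
    have hlt : G * (1 - τ) < 1 := by linarith
    have hL' := hA hlt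
    set a : ℝ := 2 / ((d : ℝ) + 2) with ha
    have ha0 : 0 < a := by positivity
    have hpos : 0 < 1 - G * (1 - τ) := by linarith
    set s : ℝ := -Real.log τ with hs
    have hs1 : 0 ≤ s := by
      rw [hs]
      have := Real.log_nonpos hτ0.le hτ1
      linarith
    have hτx : 1 - x0 ≤ τ := by
      have h2 : 1 - τ ≤ y0 / G := by
        rw [le_div_iff₀ hG0]; linarith
      rw [hx0]; linarith
    have hss : s ≤ s0 := by
      rw [hs, hs0]
      have := Real.log_le_log (show 0 < 1 - x0 by linarith) hτx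
      linarith
    set lam' : ℝ := s / s0 with hlam
    have hl0 : 0 ≤ lam' := by positivity
    have hl1 : lam' ≤ 1 := by rw [hlam, div_le_one hs00]; exact hss
    have hpow : (1 - x0) ^ lam' = τ := by
      rw [Real.rpow_def_of_pos (by linarith)]
      have : Real.log (1 - x0) * lam' = Real.log τ := by
        rw [hlam, hs]
        have : Real.log (1 - x0) = -s0 := by rw [hs0]; ring
        rw [this]
        field_simp
      rw [this, Real.exp_log hτ0]
    have h3 := conc hG (by rw [hGx0]; exact hy1) hx00 hl0 hl1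
    rw [hpow, hGx0] at h3
    have h4 := Real.log_le_log (Real.rpow_pos_of_pos (show 0 < 1 - y0 by linarith) lam') h3
    rw [Real.log_rpow (by linarith)] at h4
    -- a * (- log (1 - y0)) ≤ q * s0
    have h5 : a * (-Real.log (1 - y0)) ≤ q * s0 := by
      have e : a * (Real.log (1 - y0) / Real.log (1 - x0)) = a * (-Real.log (1 - y0)) / s0 := by
        have : Real.log (1 - x0) = -s0 := by rw [hs0]; ring
        rw [this]
        field_simp
      rw [e, div_le_iff₀ hs00] at hq1
      exact hq1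
    have h6 : a * (-Real.log (1 - G * (1 - τ))) ≤ q * s := by
      calc a * (-Real.log (1 - G * (1 - τ))) ≤ a * (lam' * (-Real.log (1 - y0))) := by
            apply mul_le_mul_of_nonneg_left _ ha0.le
            linarith
        _ = lam' * (a * (-Real.log (1 - y0))) := by ring
        _ ≤ lam' * (q * s0) := mul_le_mul_of_nonneg_left h5 hl0
        _ = q * s := by rw [hlam]; field_simp
    have h7 : τ ^ q ≤ (1 - G * (1 - τ)) ^ a := by
      rw [Real.rpow_def_of_pos hτ0, Real.rpow_def_of_pos hpos]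
      apply Real.exp_le_exp.mpr
      have : Real.log τ = -s := by rw [hs]; ring
      rw [this]
      linarith
    rw [hTq]
    have h8 : (1 - G * (1 - τ)) ^ (-a) * (1 - G * (1 - τ)) ^ a = 1 := by
      rw [← Real.rpow_add hpos]; simp
    have h9 : 0 ≤ (1 - G * (1 - τ)) ^ (-a) := Real.rpow_nonneg hpos.le _
    calc L * (TB d ^ q * τ ^ q) ≤ (z * (1 - G * (1 - τ)) ^ (-a)) * (TB d ^ q * τ ^ q) :=
          mul_le_mul_of_nonneg_right hL' (by positivity)
      _ ≤ (z * (1 - G * (1 - τ)) ^ (-a)) * (TB d ^ q * (1 - G * (1 - τ)) ^ a) := by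
          apply mul_le_mul_of_nonneg_left _ (by positivity)
          exact mul_le_mul_of_nonneg_left h7 hTBq.le
      _ = z * TB d ^ q * ((1 - G * (1 - τ)) ^ (-a) * (1 - G * (1 - τ)) ^ a) := by ring
      _ = z * TB d ^ q := by rw [h8, mul_one]
  · -- second case
    set s : ℝ := -Real.log τ with hs
    have hτx : τ ≤ 1 - x0 := by
      have h2 : y0 / G < 1 - τ := by
        rw [div_lt_iff₀ hG0]; linarith
      rw [hx0]; linarith
    have hss : s0 ≤ s := by
      rw [hs, hs0]
      have := Real.log_le_log hτ0 hτx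
      linarith
    have hwd : w d = d * (d + 2) * TB d := by
      unfold TB
      field_simp
    have h1 : Real.log ((d : ℝ) * (d + 2) / z) ≤ (q - 1) * s := by
      have h2 : Real.log ((d : ℝ) * (d + 2) / z) / s0 ≤ q - 1 := by
        linarith
      rw [div_le_iff₀ hs00] at h2
      refine h2.trans (mul_le_mul_of_nonneg_left hss (by linarith))
    have h3 : (d : ℝ) * (d + 2) * τ ^ (q - 1) ≤ z := by
      have h4 : (d : ℝ) * (d + 2) / z ≤ Real.exp ((q - 1) * s) := by
        rw [← Real.exp_log (show 0 < (d : ℝ) * (d + 2) / z by positivity)]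
        exact Real.exp_le_exp.mpr h1
      have h5 : τ ^ (q - 1) = Real.exp (-((q - 1) * s)) := by
        rw [Real.rpow_def_of_pos hτ0, hs]
        congr 1
        ring
      rw [h5, Real.exp_neg]
      rw [div_le_iff₀ hz] at h4
      rw [← div_eq_mul_inv, div_le_iff₀ (Real.exp_pos _)]
      linarith
    have e1 : T ^ q = T * T ^ (q - 1) := by
      rw [← Real.rpow_one_add' hT.le (by linarith)]
      congr 1
      ring
    have e2 : T ^ (q - 1) = TB d ^ (q - 1) * τ ^ (q - 1) := by
      rw [hTe, Real.mul_rpow hTB0.le hτ0.le]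
    have e3 : TB d ^ q = TB d * TB d ^ (q - 1) := by
      rw [← Real.rpow_one_add' hTB0.le (by linarith)]
      congr 1
      ring
    have hp1 : 0 ≤ T ^ (q - 1) := Real.rpow_nonneg hT.le _
    have hp2 : 0 ≤ TB d ^ (q - 1) := Real.rpow_nonneg hTB0.le _
    calc L * T ^ q = (L * T) * T ^ (q - 1) := by rw [e1]; ring
      _ ≤ w d * T ^ (q - 1) := mul_le_mul_of_nonneg_right hw hp1
      _ = (TB d * TB d ^ (q - 1)) * ((d : ℝ) * (d + 2) * τ ^ (q - 1)) := by rw [hwd, e2]; ring
      _ ≤ (TB d * TB d ^ (q - 1)) * z := mul_le_mul_of_nonneg_left h3 (by positivity)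
      _ = z * TB d ^ q := by rw [e3]; ring

end Pool.Agent.W573.RKJ
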